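import Mathlib
import Pool.Agent.R142.Ex42d

/-!
# Extreme magnitude Betti numbers of indecomposable arrangements

The arrangement of the six hyperplanes `x_0 = 0`, `x_1 = 0`, `x_0 + x_1 = 0`, `x_2 = 0`, `x_3 = 0`,
`x_0 + x_2 + x_3 = 0` of `ℝ⁴` is indecomposable of rank `4`, has `β_{0,0} = 42` (its number of
chambers) and `β_{4,6} ≥ 48`.
-/

set_option autoImplicit false

namespace Pool.Agent.Results.MP_65cbfa_co.ExtremeBetti

open Pool.Agent.R142.Arr Pool.Agent.R142.MagHom Pool.Agent.R142.Ex42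

/-- `A` is a direct sum of two nonempty arrangements: `ℝ^d = V₁ ⊕ V₂` and every hyperplane of `A` is
of the form `H₁ ⊕ V₂` (it contains `V₂`) or `V₁ ⊕ H₂` (it contains `V₁`), both kinds occurring. -/
def Decomposable {d : ℕ} (A : Finset (Submodule ℝ (Fin d → ℝ))) : Prop :=
  ∃ V₁ V₂ : Submodule ℝ (Fin d → ℝ), IsCompl V₁ V₂ ∧ (∀ H ∈ A, V₁ ≤ H ∨ V₂ ≤ H) ∧
    (∃ H ∈ A, V₁ ≤ H) ∧ ∃ H ∈ A, V₂ ≤ H

/-- The statement of Q1. -/
def Q1 : Prop := ∀ (d : ℕ) (A : Finset (Submodule ℝ (Fin d → ℝ))), IsArrangement A →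
  ¬ Decomposable A → 2 ≤ rank A → beta (topeGraph A) 0 0 = beta (topeGraph A) (rank A) A.card

theorem labels : ∀ l : Fin 6 → Bool,
    (∀ j, ∑ i, (if l i = true ∧ (i = 0 ∨ i = 1 ∨ i = 2) then ev i (v j) else 0) = 0) →
    (∀ j, ∑ i, (if l i = true ∧ (i = 0 ∨ i = 3 ∨ i = 4 ∨ i = 5) then ev i (v j) else 0) = 0) →
    (∀ i, l i = true) ∨ ∀ i, l i = false := by
  decide +kernel

theorem circuit (c : Fin 6 → Prop) [DecidablePred c]
    (hc : ∀ x : Fin 4 → ℝ, ∑ i, (if c i then f i x else 0) = 0)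
    (V₁ V₂ : Submodule ℝ (Fin 4 → ℝ)) (hV : IsCompl V₁ V₂) (l : Fin 6 → Bool)
    (h1 : ∀ i, l i = true → V₁ ≤ LinearMap.ker (f i))
    (h2 : ∀ i, l i = false → V₂ ≤ LinearMap.ker (f i)) (j : Fin 6) :
    ∑ i, (if l i = true ∧ c i then ev i (v j) else 0) = 0 := by
  have key : ∀ x : Fin 4 → ℝ, ∑ i, (if l i = true ∧ c i then f i x else 0) = 0 := by
    intro x
    obtain ⟨y, hy, z, hz, rfl⟩ : ∃ y ∈ V₁, ∃ z ∈ V₂, y + z = x := by
      have : x ∈ V₁ ⊔ V₂ := by rw [hV.sup_eq_top]; trivial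
      exact Submodule.mem_sup.1 this
    have e1 : ∑ i, (if l i = true ∧ c i then f i y else 0) = 0 := by
      refine Finset.sum_eq_zero fun i _ => ?_
      split_ifs with h
      · exact h1 i h.1 hy
      · rfl
    have e2 : ∑ i, (if l i = true ∧ c i then f i z else 0) = 0 := by
      refine Eq.trans (Finset.sum_congr rfl fun i _ => ?_) (hc z)
      by_cases hci : c i
      · rcases hl : l i with _ | _
        · have : f i z = 0 := h2 i hl hz
          simp [this]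
        · simp [hci]
      · simp [hci]
    have e3 : ∀ i, (if l i = true ∧ c i then f i (y + z) else 0) =
        (if l i = true ∧ c i then f i y else 0) + (if l i = true ∧ c i then f i z else 0) := by
      intro i
      split_ifs
      · rw [map_add]
      · rw [add_zero]
    rw [Finset.sum_congr rfl fun i _ => e3 i, Finset.sum_add_distrib, e1, e2, add_zero]
  have h := key fun k => (v j k : ℝ)
  have h' : ((∑ i, (if l i = true ∧ c i then ev i (v j) else 0) : ℤ) : ℝ) = 0 := by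
    rw [← h]
    push_cast
    refine Finset.sum_congr rfl fun i _ => ?_
    rw [f_int]
  exact_mod_cast h'

theorem indecomposable : ¬ Decomposable (arr f) := by
  rintro ⟨V₁, V₂, hV, hall, ⟨H₁, hH₁, hV₁⟩, ⟨H₂, hH₂, hV₂⟩⟩
  classical
  have hno : ∀ i, ¬ (V₁ ≤ LinearMap.ker (f i) ∧ V₂ ≤ LinearMap.ker (f i)) := by
    rintro i ⟨h1, h2⟩
    apply f_ne i
    have h3 : V₁ ⊔ V₂ ≤ LinearMap.ker (f i) := sup_le h1 h2
    rw [hV.sup_eq_top] at h3
    ext x
    simpa using h3 (Submodule.mem_top (x := Pi.single x (1 : ℝ)))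
  let l : Fin 6 → Bool := fun i => decide (V₁ ≤ LinearMap.ker (f i))
  have h1 : ∀ i, l i = true → V₁ ≤ LinearMap.ker (f i) := fun i hi => by simpa [l] using hi
  have h2 : ∀ i, l i = false → V₂ ≤ LinearMap.ker (f i) := fun i hi => by
    have h3 : ¬ V₁ ≤ LinearMap.ker (f i) := by simpa [l] using hi
    exact (hall _ ((mem_arr f).2 ⟨i, rfl⟩)).resolve_left h3
  have c1 := circuit (fun i => i = 0 ∨ i = 1 ∨ i = 2) (by
    intro x
    simp only [Fin.sum_univ_six, f0, f1, f2, f3, f4, f5]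
    simp) V₁ V₂ hV l h1 h2
  have c2 := circuit (fun i => i = 0 ∨ i = 3 ∨ i = 4 ∨ i = 5) (by
    intro x
    simp only [Fin.sum_univ_six, f0, f1, f2, f3, f4, f5]
    simp) V₁ V₂ hV l h1 h2
  rcases labels l c1 c2 with h | h
  · obtain ⟨i, rfl⟩ := (mem_arr f).1 hH₂
    exact hno i ⟨h1 i (h i), hV₂⟩
  · obtain ⟨i, rfl⟩ := (mem_arr f).1 hH₁
    exact hno i ⟨hV₁, h2 i (h i)⟩

theorem result :
    (∃ A : Finset (Submodule ℝ (Fin 4 → ℝ)), IsArrangement A ∧ rank A = 4 ∧ A.card = 6 ∧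
      ¬ Decomposable A ∧ beta (topeGraph A) 0 0 = 42 ∧ 48 ≤ beta (topeGraph A) 4 6) ∧ ¬ Q1 := by
  refine ⟨⟨arr f, isArrangement, rank_arr, card_arr, indecomposable, beta_zero, beta_big⟩, ?_⟩
  intro h
  have h1 := h 4 (arr f) isArrangement indecomposable (by rw [rank_arr]; norm_num)
  rw [rank_arr, card_arr] at h1
  have h2 : 48 ≤ beta (topeGraph (arr f)) 4 6 := beta_big
  have h3 : beta (topeGraph (arr f)) 0 0 = 42 := beta_zero
  omega

end Pool.Agent.Results.MP_65cbfa_co.ExtremeBetti
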